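import Mathlib

namespace Pool.Agent.Results.MP_c23e02_co.Full

/-- `S` has a `D`-colouring: colour `j` contains no two points at distance `D i j`. -/
def Colorable (S : Set ℝ) {k m : ℕ} (D : Fin k → Fin m → ℝ) : Prop :=
  ∃ T : S → Fin m, ∀ (i : Fin k) (j : Fin m) (x y : S),
    |(x : ℝ) - y| = D i j → ¬ (T x = j ∧ T y = j)

/-- The `k`-th upper chromatic number, with value `⊤` if no `m` works. -/
noncomputable def chi (k : ℕ) (S : Set ℝ) : ℕ∞ :=
  sInf {n : ℕ∞ | ∃ m : ℕ, n = m ∧ 0 < m ∧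
    ∀ D : Fin k → Fin m → ℝ, (∀ i j, 0 < D i j) → Colorable S D}

lemma exists_map {ι : Type} [Fintype ι] (v : ι → ℝ) (hv : ∀ i, v i ≠ 0) :
    ∃ (g : ℝ → ℤ) (n : ι → ℤ), (∀ i, n i ≠ 0) ∧ ∀ i x, g (x + v i) = g x + n i := by
  obtain ⟨f, hf⟩ := Module.exists_dual_forall_apply_ne_zero (K := ℚ) v hv
  obtain ⟨b, hb⟩ := IsLocalization.exist_integer_multiples_of_finite
    (nonZeroDivisors ℤ) (fun i => f (v i))
  choose n hn using hb
  have hb0 : ((b : ℤ) : ℚ) ≠ 0 := by exact_mod_cast nonZeroDivisors.coe_ne_zero b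
  have hn' : ∀ i, (n i : ℚ) = ((b : ℤ) : ℚ) * f (v i) := fun i => by
    have := hn i
    simpa using this
  refine ⟨fun x => ⌊((b : ℤ) : ℚ) * f x⌋, n, fun i h => ?_, fun i x => ?_⟩
  · have := hn' i
    rw [h] at this
    exact mul_ne_zero hb0 (hf i) (by simpa using this.symm)
  · simp only [map_add, mul_add]
    rw [← hn' i, Int.floor_add_intCast]

theorem result (k : ℕ) : chi k Set.univ = chi k (Set.range ((↑) : ℤ → ℝ)) := by
  unfold chi
  congr 1
  ext n
  constructor
  · rintro ⟨m, h1, h2, h3⟩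
    refine ⟨m, h1, h2, fun D hD => ?_⟩
    obtain ⟨T, hT⟩ := h3 D hD
    exact ⟨fun x => T ⟨x, trivial⟩, fun i j x y h => hT i j ⟨x, trivial⟩ ⟨y, trivial⟩ h⟩
  · rintro ⟨m, h1, h2, h3⟩
    refine ⟨m, h1, h2, fun D hD => ?_⟩
    obtain ⟨g, c, hc, hg⟩ := exists_map (fun p : Fin k × Fin m => D p.1 p.2)
      (fun p => (hD p.1 p.2).ne')
    obtain ⟨T, hT⟩ := h3 (fun i j => |(c (i, j) : ℝ)|)
      (fun i j => abs_pos.2 (by exact_mod_cast hc (i, j)))
    refine ⟨fun x => T ⟨(g x : ℝ), g x, rfl⟩, fun i j x y h => hT i j _ _ ?_⟩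
    rcases (abs_eq (hD i j).le).1 h with h | h
    · have e : (x : ℝ) = y + D i j := by linarith
      have := hg (i, j) y
      simp only [← e] at this
      simp only [this]
      push_cast
      congr 1
      ring
    · have e : (y : ℝ) = x + D i j := by linarith
      have := hg (i, j) x
      simp only [← e] at this
      simp only [this]
      push_cast
      rw [← abs_neg]
      congr 1
      ring

end Pool.Agent.Results.MP_c23e02_co.Full
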